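import Pool.Agent.Q240.CG.Stm

set_option autoImplicit false

/-!
# Project CG, job GapE: polynomials with small form, one more degree
-/

open Polynomial Filter Topology Finset MeasureTheory

namespace Pool.Agent.Q61.CG

open Pool.Agent.Q240.CD Pool.Agent.Q240.CG Pool.Agent.Q16.CD

theorem summ_mom {g M : ℕ → ℝ} (hg : ∀ j, 0 < g j) (hM : ∀ j, 0 ≤ M j) {k : ℕ}
    (hs : Summable fun j => M j * (1 + g j) ^ k) {p : ℝ[X]} (hp : p.natDegree ≤ k) :
    Summable fun j => M j * p.eval (g j) := by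
  obtain ⟨A, hA, hAb⟩ := poly_bd _ p hp
  refine Summable.of_norm_bounded (hs.mul_left A) fun j => ?_
  rw [norm_mul, Real.norm_of_nonneg (hM j), Real.norm_eq_abs]
  have h1 := hAb (g j)
  rw [abs_of_pos (hg j)] at h1
  calc M j * |p.eval (g j)| ≤ M j * (A * (1 + g j) ^ k) := mul_le_mul_of_nonneg_left h1 (hM j)
    _ = A * (M j * (1 + g j) ^ k) := by ring

/-- the main estimate -/
theorem gap_coreE {g M : ℕ → ℝ} {n J D : ℕ} (hPM : PM g M n) (hJD : J ≤ D) (hDn : D ≤ n) {h : ℝ[X]}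
    (hh : h.natDegree ≤ n) (hs2 : Summable fun k => M k * (X * h * h).eval (g k)) :
    Lam g M ((h - ∑ j ∈ range J, C (h.eval (g j)) * ej g D j) * (h - ∑ j ∈ range J, C (h.eval (g j)) * ej g D j)) ≤
      2 / g J * Lam g M (X * h * h) +
        ∑ j ∈ range J, 2 * J * h.eval (g j) ^ 2 * (Lam g M (ej g D j * ej g D j) - M j) := by
  have hg := PM.gpos hPM
  have hm := hPM.mono
  obtain ⟨h', hh'⟩ : ∃ h', h' = h - ∑ j ∈ range J, C (h.eval (g j)) * ej g D j := ⟨_, rfl⟩
  rw [← hh']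
  have hev : ∀ t, h'.eval t = h.eval t - ∑ j ∈ range J, h.eval (g j) * (ej g D j).eval t := by
    intro t
    rw [hh', eval_sub, eval_finsetSum]
    simp only [eval_mul, eval_C]
  have hd' : h'.natDegree ≤ n := by
    rw [hh']
    refine (natDegree_sub_le_of_le (n := n) (by omega) ?_).trans (max_self _).le
    refine natDegree_sum_le_of_forall_le _ _ fun j hj => ?_
    exact (natDegree_C_mul_le _ _).trans ((ej_deg hm (by have := mem_range.1 hj; omega)).trans hDn)
  have s1 : HasSum (fun k => M k * (h' * h').eval (g k)) (Lam g M (h' * h')) :=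
    (PM.summ hPM (natDegree_mul_le.trans (by omega))).hasSum
  have s2 : HasSum (fun k => M k * (X * h * h).eval (g k)) (Lam g M (X * h * h)) := hs2.hasSum
  have s3 : ∀ j ∈ range J, HasSum (fun k => 2 * J * h.eval (g j) ^ 2 * (M k * (ej g D j * ej g D j).eval (g k) -
      if k = j then M j else 0)) (2 * J * h.eval (g j) ^ 2 * (Lam g M (ej g D j * ej g D j) - M j)) := by
    intro j hj
    refine HasSum.mul_left _ (HasSum.sub ?_ (hasSum_ite_eq j (M j)))
    refine (PM.summ hPM ?_).hasSum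
    have := ej_deg hm (D := D) (j := j) (by have := mem_range.1 hj; omega)
    exact natDegree_mul_le.trans (by omega)
  have s4 := (s2.mul_left (2 / g J)).add (hasSum_sum s3)
  refine hasSum_le (fun k => ?_) s1 s4
  have hMk := hPM.nonneg k
  simp only [eval_mul, eval_X]
  have hnn : ∀ j ∈ range J, 0 ≤ 2 * J * h.eval (g j) ^ 2 * (M k * ((ej g D j).eval (g k) * (ej g D j).eval (g k)) -
      if k = j then M j else 0) := by
    intro j hj
    refine mul_nonneg (by positivity) ?_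
    by_cases hkj : k = j
    · rw [if_pos hkj, hkj, ej_self hm (by have := mem_range.1 hj; omega)]
      simp
    · rw [if_neg hkj, sub_zero]
      exact mul_nonneg hMk (mul_self_nonneg _)
  by_cases hkJ : k < J
  · have h0 : h'.eval (g k) = 0 := by
      rw [hev, sum_eq_single k]
      · rw [ej_self hm (by omega), mul_one, sub_self]
      · intro j _ hjk
        rw [ej_ne (by omega : k < D) hjk, mul_zero]
      · intro hk
        exact absurd (mem_range.2 hkJ) hk
    rw [h0, mul_zero, mul_zero]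
    have h1 : 0 ≤ 2 / g J * (M k * (g k * h.eval (g k) * h.eval (g k))) := by
      have := hg J
      have := hg k
      have h2 := mul_self_nonneg (h.eval (g k))
      have h3 : g k * h.eval (g k) * h.eval (g k) = g k * (h.eval (g k) * h.eval (g k)) := by ring
      rw [h3]
      positivity
    exact add_nonneg h1 (sum_nonneg hnn)
  · have h1 : h'.eval (g k) * h'.eval (g k) ≤ 2 * h.eval (g k) ^ 2 +
        ∑ j ∈ range J, 2 * J * h.eval (g j) ^ 2 * ((ej g D j).eval (g k) * (ej g D j).eval (g k)) := by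
      have h2 := sq_sum_le_card_mul_sum_sq (s := range J) (f := fun j => h.eval (g j) * (ej g D j).eval (g k))
      rw [card_range] at h2
      have h3 : h'.eval (g k) * h'.eval (g k) ≤ 2 * h.eval (g k) ^ 2 +
          2 * (∑ j ∈ range J, h.eval (g j) * (ej g D j).eval (g k)) ^ 2 := by
        rw [hev]
        nlinarith [sq_nonneg (h.eval (g k) + ∑ j ∈ range J, h.eval (g j) * (ej g D j).eval (g k))]
      have h4 : ∑ j ∈ range J, 2 * J * h.eval (g j) ^ 2 * ((ej g D j).eval (g k) * (ej g D j).eval (g k)) =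
          2 * (J * ∑ j ∈ range J, (h.eval (g j) * (ej g D j).eval (g k)) ^ 2) := by
        rw [mul_sum, mul_sum]
        exact sum_congr rfl fun j _ => by ring
      rw [h4]
      linarith
    have h5 : 2 * h.eval (g k) ^ 2 ≤ 2 / g J * (g k * h.eval (g k) * h.eval (g k)) := by
      have h6 : g J ≤ g k := hm.monotone (not_lt.1 hkJ)
      have h7 := hg J
      have h8 : 2 / g J * (g k * h.eval (g k) * h.eval (g k)) = (g k / g J) * (2 * h.eval (g k) ^ 2) := by
        field_simp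
      rw [h8]
      exact le_mul_of_one_le_left (by positivity) ((one_le_div h7).2 h6)
    calc M k * (h'.eval (g k) * h'.eval (g k)) ≤ M k * (2 / g J * (g k * h.eval (g k) * h.eval (g k)) +
          ∑ j ∈ range J, 2 * J * h.eval (g j) ^ 2 * ((ej g D j).eval (g k) * (ej g D j).eval (g k))) :=
          mul_le_mul_of_nonneg_left (by linarith) hMk
      _ = 2 / g J * (M k * (g k * h.eval (g k) * h.eval (g k))) +
          ∑ j ∈ range J, 2 * J * h.eval (g j) ^ 2 * (M k * ((ej g D j).eval (g k) * (ej g D j).eval (g k)) -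
            if k = j then M j else 0) := by
        rw [mul_add, mul_sum]
        congr 1
        · ring
        · refine sum_congr rfl fun j hj => ?_
          rw [if_neg (by have := mem_range.1 hj; omega)]
          ring

theorem gapE : S_GapE := by
  intro ι l g μ N M hF hmom q0 hq0 T C ε hε
  have hKb : S_Kb := a_kb
  have hDel : S_Del := a_del
  have hδt := hDel l g μ N M hF q0 hq0
  -- `g` is increasing and positive if the filter is not trivial
  rcases l.eq_or_neBot with rfl | hne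
  · simp
  obtain ⟨i0, hi0⟩ := hF.pm.exists
  have hm := hi0.mono
  have hg := PM.gpos hi0
  have hs := hF.gsum
  obtain ⟨T₁, hT₁⟩ : ∃ T₁, T₁ = max T 0 := ⟨_, rfl⟩
  have hT0 : 0 ≤ T₁ := by rw [hT₁]; exact le_max_right _ _
  obtain ⟨C₁, hC₁⟩ : ∃ C₁, C₁ = max C 0 := ⟨_, rfl⟩
  have hC0 : 0 ≤ C₁ := by rw [hC₁]; exact le_max_right _ _
  obtain ⟨B, hB1, hB⟩ := mj_bdd hg hs T₁
  obtain ⟨CT, hCT⟩ : ∃ CT, CT = Cg g * (1 + T₁) ^ 2 * B ^ 2 := ⟨_, rfl⟩
  have hCg : 0 ≤ Cg g := by unfold Cg; positivity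
  have hCT0 : 0 ≤ CT := by rw [hCT]; positivity
  -- `J`
  obtain ⟨J, hJ⟩ := ((g_top hg hs).eventually_ge_atTop (16 * CT * C₁ / ε)).exists
  have hJ' : 2 * CT * (2 / g J * C₁) ≤ ε / 4 := by
    rw [div_le_iff₀ hε] at hJ
    have hgJ := hg J
    have e : 2 * CT * (2 / g J * C₁) = 4 * CT * C₁ / g J := by ring
    rw [e, div_le_iff₀ hgJ]
    nlinarith
  obtain ⟨Cj, hCj⟩ : ∃ Cj : ℕ → ℝ, Cj = fun j => 2 * C₁ / (μ j * g j) := ⟨_, rfl⟩
  have hCj0 : ∀ j, 0 ≤ Cj j := fun j => by
    rw [hCj]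
    have := hF.mpos j
    have := hg j
    positivity
  obtain ⟨S1, hS1⟩ : ∃ S1 : ℝ, S1 = ∑ j ∈ range J, Cj j := ⟨_, rfl⟩
  have hS10 : 0 ≤ S1 := by rw [hS1]; exact sum_nonneg fun j _ => hCj0 j
  obtain ⟨η, hη⟩ : ∃ η : ℝ, η = ε / (16 * CT * J * S1 + 16) := ⟨_, rfl⟩
  have hη0 : 0 < η := by rw [hη]; positivity
  have hη1 : 2 * CT * (2 * J * S1 * η) ≤ ε / 4 := by
    rw [hη, mul_div_assoc', mul_div_assoc', div_le_iff₀ (by positivity)]
    have : 0 ≤ CT * J * S1 := by positivity
    nlinarith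
  -- `D`
  have hDev : ∀ᶠ D in atTop, ∀ j ∈ range J, Lam g μ (ej g D j * ej g D j) < μ j + η :=
    (eventually_all_finset (range J)).2 fun j _ => ej_excess hm hg hs hF.mpos hF.maj j hη0
  obtain ⟨D, hD, hJD⟩ := (hDev.and (eventually_ge_atTop J)).exists
  have hEx : ∀ j, ∃ E : ℝ, 0 ≤ E ∧ ∀ t, 0 ≤ t → t ≤ T₁ → (ej g D j).eval t ^ 2 ≤ E := by
    intro j
    obtain ⟨A, hA, hAb⟩ := poly_bd _ (ej g D j) le_rfl
    refine ⟨(A * (1 + T₁) ^ (ej g D j).natDegree) ^ 2, by positivity, fun t ht ht' => ?_⟩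
    rw [← sq_abs]
    refine pow_le_pow_left₀ (abs_nonneg _) ((hAb t).trans ?_) 2
    rw [abs_of_nonneg ht]
    gcongr
  choose E hE0 hE using hEx
  obtain ⟨S2, hS2⟩ : ∃ S2 : ℝ, S2 = ∑ j ∈ range J, Cj j * E j := ⟨_, rfl⟩
  have hS20 : 0 ≤ S2 := by rw [hS2]; exact sum_nonneg fun j _ => mul_nonneg (hCj0 j) (hE0 j)
  -- eventually
  have v1 : ∀ᶠ i in l, ∀ j ∈ range J, μ j / 2 < M i j :=
    (eventually_all_finset (range J)).2 fun j _ =>
      (hF.lim j).eventually (lt_mem_nhds (by have := hF.mpos j; linarith))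
  have v2 : ∀ᶠ i in l, ∀ j ∈ range J, Lam g (M i) (ej g D j * ej g D j) - M i j < η :=
    (eventually_all_finset (range J)).2 fun j hj =>
      ((hF.limP (ej g D j * ej g D j)).sub (hF.lim j)).eventually (gt_mem_nhds (by have := hD j hj; linarith))
  have v3 : ∀ᶠ i in l, Lam g (M i) (q0 i * q0 i) < ε / (8 * J * S2 + 8) :=
    hδt.eventually (gt_mem_nhds (by positivity))
  filter_upwards [hF.pm, hF.top.eventually_ge_atTop D, v1, v2, v3, hq0, hmom] with i hPM hND w1 w2 w3 hEx hmi h hh hLh t ht0 htT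
  obtain ⟨δ, hδ⟩ : ∃ δ : ℝ, δ = Lam g (M i) (q0 i * q0 i) := ⟨_, rfl⟩
  have hq0ne : q0 i ≠ 0 := by
    intro h0
    have := hEx.2.1
    rw [h0, eval_zero] at this
    exact zero_ne_one this
  have hδ0 : 0 < δ := by rw [hδ]; exact hPM.dfn _ hEx.1 hq0ne
  rw [← hδ] at w3 hLh
  have hLh' : Lam g (M i) (X * h * h) ≤ C₁ * δ :=
    hLh.trans (mul_le_mul_of_nonneg_right (by rw [hC₁]; exact le_max_left _ _) hδ0.le)
  have htT' : t ≤ T₁ := by rw [hT₁]; exact htT.trans (le_max_left _ _)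
  -- the values at the points
  have hsX : Summable fun k => M i k * (X * h * h).eval (g k) := by
    refine summ_mom hg hPM.nonneg hmi ?_
    refine natDegree_mul_le.trans ?_
    have : (X * h : ℝ[X]).natDegree ≤ 1 + h.natDegree := natDegree_mul_le.trans (by rw [natDegree_X])
    omega
  have hval : ∀ j ∈ range J, h.eval (g j) ^ 2 ≤ Cj j * δ := by
    intro j hj
    have h1 : M i j * (X * h * h).eval (g j) ≤ Lam g (M i) (X * h * h) :=
      hsX.le_tsum j fun k _ => by
        simp only [eval_mul, eval_X]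
        have h3 : g k * h.eval (g k) * h.eval (g k) = g k * (h.eval (g k) * h.eval (g k)) := by ring
        rw [h3]
        exact mul_nonneg (hPM.nonneg k) (mul_nonneg (hg k).le (mul_self_nonneg _))
    have h2 : M i j * (X * h * h).eval (g j) = M i j * (g j * h.eval (g j) ^ 2) := by
      simp only [eval_mul, eval_X]
      ring
    have h3 : μ j / 2 * (g j * h.eval (g j) ^ 2) ≤ C₁ * δ := by
      refine le_trans ?_ ((h2 ▸ h1).trans hLh')
      have := hg j
      have := (w1 j hj).le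
      gcongr
    rw [hCj]
    show h.eval (g j) ^ 2 ≤ 2 * C₁ / (μ j * g j) * δ
    have := hg j
    have := hF.mpos j
    rw [div_mul_eq_mul_div, le_div_iff₀ (by positivity)]
    linarith
  obtain ⟨h', hh'⟩ : ∃ h', h' = h - ∑ j ∈ range J, Polynomial.C (h.eval (g j)) * ej g D j := ⟨_, rfl⟩
  have hcore := gap_coreE hPM hJD hND hh hsX
  rw [← hh'] at hcore
  have hd' : h'.natDegree ≤ N i := by
    rw [hh']
    refine (natDegree_sub_le_of_le (n := N i) (by omega) ?_).trans (max_self _).le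
    refine natDegree_sum_le_of_forall_le _ _ fun j hj => ?_
    exact (natDegree_C_mul_le _ _).trans ((ej_deg hm (by have := mem_range.1 hj; omega)).trans hND)
  have hLam' : Lam g (M i) (h' * h') ≤ (2 / g J * C₁ + 2 * J * S1 * η) * δ := by
    refine hcore.trans ?_
    have h1 : 2 / g J * Lam g (M i) (X * h * h) ≤ 2 / g J * (C₁ * δ) := by
      have := hg J
      gcongr
    have h2 : ∑ j ∈ range J, 2 * J * h.eval (g j) ^ 2 * (Lam g (M i) (ej g D j * ej g D j) - M i j) ≤
        ∑ j ∈ range J, 2 * J * (Cj j * δ) * η := by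
      refine sum_le_sum fun j hj => ?_
      have h3 := hval j hj
      have h4 := (w2 j hj).le
      have h5 : 0 ≤ 2 * (J : ℝ) * h.eval (g j) ^ 2 := by positivity
      calc 2 * J * h.eval (g j) ^ 2 * (Lam g (M i) (ej g D j * ej g D j) - M i j) ≤ 2 * J * h.eval (g j) ^ 2 * η :=
            mul_le_mul_of_nonneg_left h4 h5
        _ ≤ 2 * J * (Cj j * δ) * η := by gcongr
    have h3 : ∑ j ∈ range J, 2 * J * (Cj j * δ) * η = 2 * J * S1 * η * δ := by
      rw [hS1, mul_sum, sum_mul, sum_mul]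
      exact sum_congr rfl fun j _ => by ring
    rw [h3] at h2
    linarith
  -- the kernel bound
  have hk := hKb g (M i) (N i) hPM (q0 i) hEx (N i) h' t le_rfl hd' ht0
  rw [← hδ] at hk
  have hLam0 : 0 ≤ (2 / g J * C₁ + 2 * J * S1 * η) * δ := by
    have := hg J
    positivity
  have hk2 : h'.eval t ^ 2 * δ ≤ CT * ((2 / g J * C₁ + 2 * J * S1 * η) * δ) := by
    refine hk.trans ?_
    rw [hCT]
    have h1 : Cg g * (1 + t) ^ 2 * mj g (N i - 1) t ^ 2 ≤ Cg g * (1 + T₁) ^ 2 * B ^ 2 := by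
      have h2 := hB (N i - 1) t htT'
      have h3 : 0 ≤ mj g (N i - 1) t := zero_le_one.trans (mj_one_le _ _ _)
      gcongr
    calc Cg g * (1 + t) ^ 2 * mj g (N i - 1) t ^ 2 * Lam g (M i) (h' * h') ≤
          Cg g * (1 + t) ^ 2 * mj g (N i - 1) t ^ 2 * ((2 / g J * C₁ + 2 * J * S1 * η) * δ) :=
          mul_le_mul_of_nonneg_left hLam' (by positivity)
      _ ≤ _ := mul_le_mul_of_nonneg_right h1 hLam0
  have hk3 : h'.eval t ^ 2 ≤ CT * (2 / g J * C₁ + 2 * J * S1 * η) := by
    have h1 : h'.eval t ^ 2 * δ ≤ (CT * (2 / g J * C₁ + 2 * J * S1 * η)) * δ := by linarith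
    exact le_of_mul_le_mul_right h1 hδ0
  -- the sum
  have hsum : (∑ j ∈ range J, h.eval (g j) * (ej g D j).eval t) ^ 2 ≤ J * (S2 * δ) := by
    have h2 := sq_sum_le_card_mul_sum_sq (s := range J) (f := fun j => h.eval (g j) * (ej g D j).eval t)
    rw [card_range] at h2
    refine h2.trans (mul_le_mul_of_nonneg_left ?_ (Nat.cast_nonneg _))
    rw [hS2, sum_mul]
    refine sum_le_sum fun j hj => ?_
    rw [mul_pow]
    have h3 := hval j hj
    have h4 := hE j t ht0 htT'
    calc h.eval (g j) ^ 2 * (ej g D j).eval t ^ 2 ≤ (Cj j * δ) * E j :=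
          mul_le_mul h3 h4 (sq_nonneg _) (mul_nonneg (hCj0 j) hδ0.le)
      _ = Cj j * E j * δ := by ring
  have hev : h.eval t = h'.eval t + ∑ j ∈ range J, h.eval (g j) * (ej g D j).eval t := by
    rw [hh', eval_sub, eval_finsetSum]
    simp only [eval_mul, eval_C]
    ring
  have h7 : 2 * (J * (S2 * δ)) ≤ ε / 4 := by
    have h8 : δ * (8 * J * S2 + 8) ≤ ε := ((lt_div_iff₀ (by positivity)).1 w3).le
    have h9 : 0 ≤ δ := hδ0.le
    nlinarith
  rw [hev]
  nlinarith [sq_nonneg (h'.eval t - ∑ j ∈ range J, h.eval (g j) * (ej g D j).eval t)]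

end Pool.Agent.Q61.CG
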