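import Pool.Agent.Q240.CG.Stm
import Pool.Agent.Q61.CD.Oeb

set_option autoImplicit false

/-!
# Project CG, job Oeb0: the norm of the odd extremal polynomial
-/

open Polynomial Filter Topology Finset MeasureTheory

namespace Pool.Agent.Q61.CG

open Pool.Agent.Q240.CD Pool.Agent.Q240.CG Pool.Agent.Q61.CD

theorem oeb0 : S_Oeb0 := by
  intro ι l g μ N M u hF hW r0 hr0
  have hKb : S_Kb := a_kb
  have hlow : S_Q0low := a_low
  rcases l.eq_or_neBot with rfl | hne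
  · exact ⟨1, 1, one_pos, one_pos, by simp⟩
  obtain ⟨r, c0, hr, hrg, hc0, hu⟩ := hW.low
  have hpm := hF.fam'.pm
  have hgs := hF.fam'.gsum
  obtain ⟨i0, hi0, hi0'⟩ := (hpm.and hr0).exists
  have hg : ∀ j, 0 < g j := g_pos hi0
  have hGG : 0 < GG g (r ^ 2) :=
    (hlow g _ (N i0 - 1) hi0 hgs (r0 i0) hi0' (r ^ 2) (sq_nonneg r) hrg).1
  obtain ⟨X, hX0, hX⟩ := tail_ge hW 1 one_pos 0
  obtain ⟨B, hB⟩ := hW.bdd X
  obtain ⟨Bm, hBm1, hBm⟩ := mj_bdd hg hgs (X ^ 2)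
  have hCg := Cg_pos hi0.pos
  refine ⟨r / 2 * (r ^ 2 / 4 * GG g (r ^ 2) ^ 2 * c0),
    2 * X * (X ^ 2 * (Cg g * ((1 + X ^ 2) ^ 2 * Bm ^ 2)) * max B 0) + Cg g * 1, by positivity,
    by positivity, ?_⟩
  filter_upwards [hpm, hr0, hu, hX, hB, hW.int, hW.intM, hF.fam.top.eventually_ge_atTop 1] with i h1 h2 h3 h4 h5 h6 h7 h8
  have hd : (r0 i).natDegree + 1 ≤ N i := by
    have := h2.1
    omega
  have hint : Integrable fun x => x ^ 2 * (r0 i).eval (x ^ 2) ^ 2 * u i x :=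
    int_Oo (hW.nonneg i) (hW.cont i) h6 (r0 i) hd
  have hnn : ∀ x, 0 ≤ x ^ 2 * (r0 i).eval (x ^ 2) ^ 2 * u i x :=
    fun x => mul_nonneg (mul_nonneg (sq_nonneg _) (sq_nonneg _)) (hW.nonneg i x)
  constructor
  · have e1 : ∫ x in Set.Icc (r / 2) r, (r ^ 2 / 4 * GG g (r ^ 2) ^ 2 * c0) ≤
        ∫ x in Set.Icc (r / 2) r, x ^ 2 * (r0 i).eval (x ^ 2) ^ 2 * u i x := by
      refine setIntegral_mono_on continuous_const.integrableOn_Icc hint.integrableOn
        measurableSet_Icc fun x hx => ?_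
      have hx0 : 0 < x := by linarith [hx.1]
      have hx' : |x| ≤ r := by rw [abs_of_pos hx0]; exact hx.2
      have hx2 : x ^ 2 ≤ r ^ 2 := pow_le_pow_left₀ hx0.le hx.2 2
      have hx3 : r ^ 2 / 4 ≤ x ^ 2 := by
        have := pow_le_pow_left₀ (by linarith : 0 ≤ r / 2) hx.1 2
        linarith [this, (by ring : (r / 2) ^ 2 = r ^ 2 / 4)]
      have e2 := (hlow g _ (N i - 1) h1 hgs (r0 i) h2 (x ^ 2) (sq_nonneg x)
        (lt_of_le_of_lt hx2 hrg)).2.1
      have e3 := GG_anti h1.mono h1.pos hgs hx2 hrg.le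
      have e4 : GG g (r ^ 2) ^ 2 ≤ (r0 i).eval (x ^ 2) ^ 2 :=
        pow_le_pow_left₀ hGG.le (e3.trans e2) 2
      exact mul_le_mul (mul_le_mul hx3 e4 (sq_nonneg _) (sq_nonneg _)) (h3 x hx') hc0.le
        (mul_nonneg (sq_nonneg _) (sq_nonneg _))
    have e5 : ∫ x in Set.Icc (r / 2) r, (r ^ 2 / 4 * GG g (r ^ 2) ^ 2 * c0) =
        r / 2 * (r ^ 2 / 4 * GG g (r ^ 2) ^ 2 * c0) := by
      rw [setIntegral_const, Measure.real, Real.volume_Icc, smul_eq_mul,
        ENNReal.toReal_ofReal (by linarith)]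
      ring
    rw [e5] at e1
    exact e1.trans (setIntegral_le_integral hint (Eventually.of_forall hnn))
  · have hL : Lam g (fun j => g j * M i j) (r0 i * r0 i) ≤ 1 * Lam g (fun j => g j * M i j) (r0 i * r0 i) := by
      rw [one_mul]
    have e0 : ∀ x : ℝ, (r0 i).eval (x ^ 2) ^ 2 ≤ Cg g * ((1 + x ^ 2) ^ 2 * mj g (N i - 2) (x ^ 2) ^ 2) := by
      intro x
      have e2 := q_bound hKb h1 h2 h2.1 hL x
      rwa [one_mul, show N i - 1 - 1 = N i - 2 by omega] at e2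
    have e1 := split_int (F := fun x => x ^ 2 * (r0 i).eval (x ^ 2) ^ 2 * u i x)
      (G := fun x => MJ g (N i) x * u i x) (A := fun _ => 0) (K := Cg g)
      (η := X ^ 2 * (Cg g * ((1 + X ^ 2) ^ 2 * Bm ^ 2)) * max B 0) (τ := 1) hX0 hint h7
      (integrable_zero _ _ _) (fun _ => le_rfl) hCg.le (fun x => ?_) (fun x hx => ?_) h4
    · rw [integral_zero, zero_add] at e1
      exact e1
    · rw [← mul_assoc]
      refine mul_le_mul_of_nonneg_right ?_ (hW.nonneg i x)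
      calc x ^ 2 * (r0 i).eval (x ^ 2) ^ 2 ≤
            x ^ 2 * (Cg g * ((1 + x ^ 2) ^ 2 * mj g (N i - 2) (x ^ 2) ^ 2)) :=
            mul_le_mul_of_nonneg_left (e0 x) (sq_nonneg x)
        _ = Cg g * ((1 + x ^ 2) ^ 2 * (x ^ 2 * mj g (N i - 2) (x ^ 2) ^ 2)) := by ring
        _ ≤ Cg g * MJ g (N i) x := by
            refine mul_le_mul_of_nonneg_left ?_ hCg.le
            unfold MJ
            refine mul_le_mul_of_nonneg_left ?_ (sq_nonneg _)
            have := sq_nonneg (mj g (N i - 1) (x ^ 2))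
            linarith
    · have hx2 : x ^ 2 ≤ X ^ 2 := sq_le_sq' (by linarith [(abs_le.1 hx).1]) (abs_le.1 hx).2
      rw [zero_add]
      have e3 : (r0 i).eval (x ^ 2) ^ 2 ≤ Cg g * ((1 + X ^ 2) ^ 2 * Bm ^ 2) := by
        refine (e0 x).trans (mul_le_mul_of_nonneg_left ?_ hCg.le)
        refine mul_le_mul (pow_le_pow_left₀ (by positivity) (by linarith) 2)
          (pow_le_pow_left₀ (mj_nonneg _ _ _) (hBm _ _ hx2) 2) (sq_nonneg _) (by positivity)
      exact mul_le_mul (mul_le_mul hx2 e3 (sq_nonneg _) (sq_nonneg _))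
        ((h5 x hx).trans (le_max_left _ _)) (hW.nonneg i x) (by positivity)

end Pool.Agent.Q61.CG
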